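import Mathlib

set_option autoImplicit false

/-!
# SO-3: assignments with prescribed multiplicities (Hall's theorem)

The type of colours has to be nonempty: for `J = ∅`, `κ` empty and `ι` nonempty there is no map
`ι → κ` at all.
-/

namespace Pool.Agent.Helper28.SO

/-- SO-3. -/
theorem exists_assignment {ι κ : Type*} [DecidableEq ι] [DecidableEq κ] [Nonempty κ]
    (J : Finset ι) (C : Finset κ) (I : ι → Finset κ) (hI : ∀ j ∈ J, I j ⊆ C) (a : κ → ℕ)
    (htot : ∑ c ∈ C, a c = J.card)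
    (hall : ∀ D ⊆ C, (J.filter (fun j => I j ⊆ D)).card ≤ ∑ c ∈ D, a c) :
    ∃ φ : ι → κ, (∀ j ∈ J, φ j ∈ I j) ∧
      ∀ c ∈ C, (J.filter (fun j => φ j = c)).card = a c := by
  classical
  let t : {j // j ∈ J} → Finset (Σ _ : κ, ℕ) := fun j => (I j.1).sigma fun c => Finset.range (a c)
  have hH : ∀ s : Finset {j // j ∈ J}, s.card ≤ (s.biUnion t).card := by
    intro s
    let D : Finset κ := s.biUnion fun j => I j.1
    have hD : D ⊆ C := by
      intro c hc
      obtain ⟨j, _, hj⟩ := Finset.mem_biUnion.mp hc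
      exact hI j.1 j.2 hj
    have h1 : s.biUnion t = D.sigma fun c => Finset.range (a c) := by
      ext x
      simp only [t, D, Finset.mem_biUnion, Finset.mem_sigma]
      constructor
      · rintro ⟨j, hj, h2, h3⟩
        exact ⟨⟨j, hj, h2⟩, h3⟩
      · rintro ⟨⟨j, hj, h2⟩, h3⟩
        exact ⟨j, hj, h2, h3⟩
    have h2 : (s.biUnion t).card = ∑ c ∈ D, a c := by
      rw [h1, Finset.card_sigma]
      simp only [Finset.card_range]
    rw [h2]
    refine le_trans ?_ (hall D hD)
    have h3 : s.card = (s.map ⟨Subtype.val, Subtype.val_injective⟩).card := by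
      rw [Finset.card_map]
    rw [h3]
    apply Finset.card_le_card
    intro j hj
    obtain ⟨i, hi, rfl⟩ := Finset.mem_map.mp hj
    exact Finset.mem_filter.mpr ⟨i.2, fun c hc => Finset.mem_biUnion.mpr ⟨i, hi, hc⟩⟩
  obtain ⟨f, hf, hft⟩ := (Finset.all_card_le_biUnion_card_iff_exists_injective t).mp hH
  let φ : ι → κ := fun j => if h : j ∈ J then (f ⟨j, h⟩).1 else Classical.arbitrary κ
  have hφ : ∀ (j : ι) (h : j ∈ J), φ j = (f ⟨j, h⟩).1 := fun j h => dif_pos h
  have hmem : ∀ j ∈ J, φ j ∈ I j := by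
    intro j hj
    rw [hφ j hj]
    exact (Finset.mem_sigma.mp (hft ⟨j, hj⟩)).1
  refine ⟨φ, hmem, ?_⟩
  have hle : ∀ c ∈ C, (J.filter (fun j => φ j = c)).card ≤ a c := by
    intro c _
    rw [← Finset.card_range (a c)]
    refine Finset.card_le_card_of_injOn
      (fun j => if h : j ∈ J then (f ⟨j, h⟩).2 else 0) ?_ ?_
    · intro j hj
      have hj' := Finset.mem_filter.mp (Finset.mem_coe.mp hj)
      have h1 := (Finset.mem_sigma.mp (hft ⟨j, hj'.1⟩)).2
      have h2 : (f ⟨j, hj'.1⟩).1 = c := by rw [← hφ j hj'.1]; exact hj'.2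
      rw [h2] at h1
      simp only [hj'.1, dif_pos]
      exact h1
    · intro j hj k hk hjk
      have hj' := Finset.mem_filter.mp (Finset.mem_coe.mp hj)
      have hk' := Finset.mem_filter.mp (Finset.mem_coe.mp hk)
      simp only [hj'.1, hk'.1, dif_pos] at hjk
      have h1 : (f ⟨j, hj'.1⟩).1 = (f ⟨k, hk'.1⟩).1 := by
        rw [← hφ j hj'.1, ← hφ k hk'.1, hj'.2, hk'.2]
      have h2 : f ⟨j, hj'.1⟩ = f ⟨k, hk'.1⟩ := Sigma.ext h1 (heq_of_eq hjk)
      exact congrArg Subtype.val (hf h2)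
  have hsum : ∑ c ∈ C, (J.filter (fun j => φ j = c)).card = ∑ c ∈ C, a c := by
    rw [htot]
    exact (Finset.card_eq_sum_card_fiberwise fun j hj => hI j hj (hmem j hj)).symm
  exact (Finset.sum_eq_sum_iff_of_le hle).mp hsum

end Pool.Agent.Helper28.SO
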